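import Pool.Agent.K6.H82.RW.Esc

set_option autoImplicit false

/-! # Almost stationary means on groups of matrices do not charge closed sets, uniformly -/

namespace Pool.Agent.K6.H82.RW

open Pool.Agent.K6.H47.SG

variable {H : Type} [Group H] {K : Type} [Field K] {A : Type} [Fintype A]

theorem orb_fact (x : A → H) {F : Submodule K (H → K)} (hF : ∀ g, T g F ≤ F)
    {J : Submodule K (H → K)} (hJ : J ≤ F) (j : ℕ) :
    ∀ J' ∈ Orb x J j, J' ≤ F ∧ Module.finrank K J' = Module.finrank K J := by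
  induction j with
  | zero =>
    intro J' h
    have h1 : J' = J := Finset.mem_singleton.1 h
    rw [h1]
    exact ⟨hJ, rfl⟩
  | succ j ih =>
    intro J' h
    rcases mem_orb_succ x J j h with h1 | ⟨J'', h1, a, rfl⟩
    · exact ih J' h1
    · obtain ⟨h2, h3⟩ := ih J'' h1
      exact ⟨(T_mono _ h2).trans (hF _), by rw [T_finrank, h3]⟩

theorem one_le_div {p : A → ℝ} (h1 : ∑ a, p a = 1) {q : ℝ} (hq0 : 0 < q) (hq : ∀ a, q ≤ p a) :
    1 ≤ 3 / q := by
  have hA : Nonempty A := by
    by_contra h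
    rw [not_nonempty_iff] at h
    rw [Finset.univ_eq_empty, Finset.sum_empty] at h1
    exact zero_ne_one h1
  obtain ⟨a⟩ := hA
  have h2 : p a ≤ ∑ a, p a :=
    Finset.single_le_sum (fun a _ => hq0.le.trans (hq a)) (Finset.mem_univ a)
  rw [le_div_iff₀ hq0]
  have := hq a
  linarith

theorem orb_mass (x : A → H) (p : A → ℝ) (h1 : ∑ a, p a = 1) {q : ℝ} (hq0 : 0 < q)
    (hq : ∀ a, q ≤ p a) (N : Subgroup H) [N.Normal] {F : Submodule K (H → K)}
    (hF : ∀ g, T g F ≤ F) {J : Submodule K (H → K)} (hJ : J ≤ F) {π : Set H → ℝ}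
    {β δ : ℝ} (hδ : 0 < δ) (hst : Stat x p δ π)
    (hup : ∀ J' ≤ F, Module.finrank K J' = Module.finrank K J → π (bad N J') ≤ β + δ)
    (hlow : β - δ ≤ π (bad N J)) (j : ℕ) :
    ∀ J' ∈ Orb x J j, β - (3 / q) ^ j * δ ≤ π (bad N J') := by
  classical
  have hp : ∀ a, 0 ≤ p a := fun a => hq0.le.trans (hq a)
  have hq1 : 1 ≤ 3 / q := one_le_div h1 hq0 hq
  induction j with
  | zero =>
    intro J' h
    have h1 : J' = J := Finset.mem_singleton.1 h
    rw [h1, pow_zero, one_mul]
    exact hlow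
  | succ j ih =>
    intro J' h
    have hmono : δ ≤ (3 / q) ^ j * δ := by
      have : 1 ≤ (3 / q) ^ j := one_le_pow₀ hq1
      nlinarith
    have hstep : (3 / q) ^ j * δ ≤ (3 / q) ^ (j + 1) * δ := by
      rw [pow_succ]
      have h2 : 0 ≤ (3 / q) ^ j * δ := by positivity
      nlinarith
    rcases mem_orb_succ x J j h with h1' | ⟨J'', h1', a, rfl⟩
    · have := ih J' h1'
      linarith
    · have h2 := ih J'' h1'
      obtain ⟨h3, h4⟩ := orb_fact x hF hJ j J'' h1'
      have h5 := hst (bad N J'')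
      have h6 : ∀ b, {h | x b * h ∈ bad N J''} = bad N (T (x b) J'') := by
        intro b
        ext h
        exact (bad_T N (x b) J'' h).symm
      simp only [h6] at h5
      obtain ⟨u, hu⟩ : ∃ u : A → ℝ, ∀ b, u b = π (bad N (T (x b) J'')) := ⟨_, fun _ => rfl⟩
      simp only [← hu] at h5 ⊢
      have h7 : ∀ b, u b ≤ β + δ := fun b => by
        rw [hu]
        exact hup _ ((T_mono _ h3).trans (hF _)) (by rw [T_finrank, h4])
      have h8 : ∑ b, p b * u b ≤ p a * u a + (1 - p a) * (β + δ) := by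
        rw [← Finset.add_sum_erase _ _ (Finset.mem_univ a)]
        have h9 : ∑ b ∈ Finset.univ.erase a, p b * u b ≤
            ∑ b ∈ Finset.univ.erase a, p b * (β + δ) :=
          Finset.sum_le_sum fun b _ => mul_le_mul_of_nonneg_left (h7 b) (hp b)
        rw [← Finset.sum_mul] at h9
        have h10 : ∑ b ∈ Finset.univ.erase a, p b = 1 - p a := by
          have := Finset.add_sum_erase Finset.univ p (Finset.mem_univ a)
          linarith
        rw [h10] at h9
        linarith
      have h9 : p a * β - 3 * ((3 / q) ^ j * δ) ≤ p a * u a := by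
        have h10 : 0 ≤ p a * δ := mul_nonneg (hp a) hδ.le
        nlinarith
      have h10 : p a * (β - (3 / q) ^ (j + 1) * δ) ≤ p a * u a := by
        refine le_trans ?_ h9
        have h11 : 3 * ((3 / q) ^ j * δ) ≤ p a * ((3 / q) ^ (j + 1) * δ) := by
          have h12 : q * ((3 / q) ^ (j + 1) * δ) = 3 * ((3 / q) ^ j * δ) := by
            rw [pow_succ]
            field_simp
          rw [← h12]
          exact mul_le_mul_of_nonneg_right (hq a) (by positivity)
        linarith
      exact le_of_mul_le_mul_left h10 (hq0.trans_le (hq a))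

theorem Stat.mono {x : A → H} {p : A → ℝ} {η η' : ℝ} {π : Set H → ℝ} (h : Stat x p η π)
    (hη : η ≤ η') : Stat x p η' π := fun S => (h S).trans (by linarith)

/-- **Escape.** Almost stationary means have small values at the parts of closed sets which are
outside of the cosets of `N` contained in them, uniformly. -/
theorem escape (x : A → H) (p : A → ℝ) (hp : ∀ a, 0 < p a) (h1 : ∑ a, p a = 1)
    (hx : Subgroup.closure (Set.range x) = ⊤) (N : Subgroup H) [N.Normal]
    (F : Submodule K (H → K)) [FiniteDimensional K F] (hF : ∀ g, T g F ≤ F)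
    (hN : ∀ J ≤ F, ∀ N' : Subgroup H, N'.FiniteIndex → (∀ ν ∈ N', T ν J ≤ J) →
      ∀ ν ∈ N, T ν J ≤ J) (k : ℕ) :
    ∀ ε : ℝ, 0 < ε → ∃ η : ℝ, 0 < η ∧ ∀ π : Set H → ℝ, IsMean π → Stat x p η π → ∀ J ≤ F,
      Module.finrank K F ≤ Module.finrank K J + k → π (bad N J) ≤ ε := by
  classical
  obtain ⟨q, hq0, hq⟩ : ∃ q : ℝ, 0 < q ∧ ∀ a, q ≤ p a := by
    have hA : Nonempty A := by
      by_contra h
      rw [not_nonempty_iff] at h
      rw [Finset.univ_eq_empty, Finset.sum_empty] at h1
      exact zero_ne_one h1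
    obtain ⟨a, ha⟩ := Finite.exists_min p
    exact ⟨p a, hp a, ha⟩
  induction k with
  | zero =>
    intro ε hε
    refine ⟨1, one_pos, fun π hπ _ J hJ hk => ?_⟩
    have hJF : J = F := Submodule.eq_of_le_of_finrank_le hJ hk
    rw [hJF, bad_empty N F fun ν _ => hF ν, hπ.empty]
    exact hε.le
  | succ k ih =>
    -- the upper bounds
    obtain ⟨S, hS⟩ : ∃ S : Set ℝ, ∀ c, c ∈ S ↔ 0 ≤ c ∧ ∃ η : ℝ, 0 < η ∧ ∀ π : Set H → ℝ,
        IsMean π → Stat x p η π → ∀ J ≤ F,
        Module.finrank K F ≤ Module.finrank K J + (k + 1) → π (bad N J) ≤ c :=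
      ⟨{c | 0 ≤ c ∧ ∃ η : ℝ, 0 < η ∧ ∀ π : Set H → ℝ, IsMean π → Stat x p η π → ∀ J ≤ F,
        Module.finrank K F ≤ Module.finrank K J + (k + 1) → π (bad N J) ≤ c},
        fun _ => Iff.rfl⟩
    have hS1 : (1 : ℝ) ∈ S := by
      rw [hS]
      exact ⟨zero_le_one, 1, one_pos, fun π hπ _ J _ _ => hπ.le_one _⟩
    have hSb : ∀ c ∈ S, 0 ≤ c := fun c hc => ((hS c).1 hc).1
    have hSb' : BddBelow S := ⟨0, fun c hc => hSb c hc⟩
    obtain ⟨b, hb⟩ : ∃ b, b = sInf S := ⟨_, rfl⟩
    have hb0 : 0 ≤ b := by rw [hb]; exact le_csInf ⟨1, hS1⟩ hSb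
    rcases hb0.eq_or_lt with hb1 | hb1
    · intro ε hε
      obtain ⟨c, hc, hcε⟩ := exists_lt_of_csInf_lt ⟨1, hS1⟩ (show sInf S < ε by
        rw [← hb, ← hb1]; exact hε)
      obtain ⟨-, η, hη, h⟩ := (hS c).1 hc
      exact ⟨η, hη, fun π hπ hst J hJ hk => (h π hπ hst J hJ hk).trans hcε.le⟩
    · exfalso
      obtain ⟨n, hn⟩ : ∃ n : ℕ, 4 / b < n := exists_nat_gt _
      have hn0 : (0 : ℝ) < n := lt_trans (by positivity) hn
      have hnb : 4 < n * b := by rwa [div_lt_iff₀ hb1] at hn
      obtain ⟨δ, hδ⟩ : ∃ δ : ℝ, δ = b / 2 * (q / 3) ^ n := ⟨_, rfl⟩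
      have hδ0 : 0 < δ := by rw [hδ]; positivity
      have hδn : (3 / q) ^ n * δ = b / 2 := by
        rw [hδ, mul_left_comm, ← mul_pow]
        have : 3 / q * (q / 3) = 1 := by field_simp
        rw [this, one_pow, mul_one]
      have hδb : δ < b := by
        have h3 : δ ≤ (3 / q) ^ n * δ := by
          have : 1 ≤ (3 / q) ^ n := one_le_pow₀ (one_le_div h1 hq0 hq)
          nlinarith
        linarith
      -- the upper bound
      obtain ⟨c, hc, hcb⟩ := exists_lt_of_csInf_lt ⟨1, hS1⟩ (show sInf S < b + δ by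
        rw [← hb]; linarith)
      obtain ⟨-, η₁, hη₁, hup₁⟩ := (hS c).1 hc
      obtain ⟨η₂, hη₂, hup₂⟩ := ih (1 / n ^ 2) (by positivity)
      -- the lower bound
      have hnot : b - δ ∉ S := fun h => by
        have h2 := csInf_le hSb' h
        rw [← hb] at h2
        linarith
      rw [hS] at hnot
      push Not at hnot
      obtain ⟨π, hπ, hst, J, hJ, hk, hlow⟩ := hnot (by linarith) (min δ (min η₁ η₂))
        (lt_min hδ0 (lt_min hη₁ hη₂))
      have hst0 : Stat x p δ π := hst.mono (min_le_left _ _)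
      have hst1 : Stat x p η₁ π := hst.mono ((min_le_right _ _).trans (min_le_left _ _))
      have hst2 : Stat x p η₂ π := hst.mono ((min_le_right _ _).trans (min_le_right _ _))
      have hup : ∀ J' ≤ F, Module.finrank K J' = Module.finrank K J →
          π (bad N J') ≤ b + δ := fun J' hJ' hf =>
        (hup₁ π hπ hst1 J' hJ' (by rw [hf]; exact hk)).trans hcb.le
      have hmass := orb_mass x p h1 hq0 hq N hF hJ hδ0 hst0 hup hlow.le n
      by_cases hcase : ∃ N' : Subgroup H, N'.FiniteIndex ∧ ∀ ν ∈ N', T ν J ≤ J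
      · obtain ⟨N', h3, h4⟩ := hcase
        have h5 := bad_empty N J (hN J hJ N' h3 h4)
        rw [h5, hπ.empty] at hlow
        linarith
      · have hcard := orb_card x hx J (fun N' h3 h4 => hcase ⟨N', h3, h4⟩) n
        obtain ⟨D, hDO, hDc⟩ := Finset.exists_subset_card_eq (show n ≤ (Orb x J n).card by omega)
        have hbonf := hπ.bonf D fun J' => bad N J'
        have h3 : (n : ℝ) * (b / 2) ≤ ∑ J' ∈ D, π (bad N J') := by
          have h4 : ∑ _J' ∈ D, b / 2 ≤ ∑ J' ∈ D, π (bad N J') := by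
            refine Finset.sum_le_sum fun J' hJ' => ?_
            have := hmass J' (hDO hJ')
            rw [hδn] at this
            linarith
          rwa [Finset.sum_const, hDc, nsmul_eq_mul] at h4
        have h4 : ∑ q ∈ D.offDiag, π (bad N q.1 ∩ bad N q.2) ≤ 1 := by
          have h5 : ∀ q ∈ D.offDiag, π (bad N q.1 ∩ bad N q.2) ≤ 1 / n ^ 2 := by
            rintro ⟨J₁, J₂⟩ hq12
            obtain ⟨hJ1, hJ2, hne⟩ := Finset.mem_offDiag.1 hq12
            obtain ⟨h6, h7⟩ := orb_fact x hF hJ n J₁ (hDO hJ1)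
            obtain ⟨h8, h9⟩ := orb_fact x hF hJ n J₂ (hDO hJ2)
            refine (hπ.mono (bad_inter N J₁ J₂)).trans ?_
            refine hup₂ π hπ hst2 _ (sup_le h6 h8) ?_
            have hfin : FiniteDimensional K (J₁ ⊔ J₂ : Submodule K (H → K)) :=
              Submodule.finiteDimensional_of_le (sup_le h6 h8)
            have hlt : J₁ < J₁ ⊔ J₂ := by
              refine lt_of_le_of_ne le_sup_left fun heq => hne ?_
              have h10 : J₂ ≤ J₁ := by rw [heq]; exact le_sup_right
              have hfin1 : FiniteDimensional K J₁ := Submodule.finiteDimensional_of_le h6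
              exact (Submodule.eq_of_le_of_finrank_eq h10 (by rw [h7, h9])).symm
            have := Submodule.finrank_lt_finrank_of_lt hlt
            omega
          refine (Finset.sum_le_sum h5).trans ?_
          rw [Finset.sum_const, nsmul_eq_mul, Finset.offDiag_card, hDc]
          have h6 : ((n * n - n : ℕ) : ℝ) ≤ n ^ 2 := by
            have : n * n - n ≤ n ^ 2 := by rw [pow_two]; exact Nat.sub_le _ _
            exact_mod_cast this
          rw [mul_one_div, div_le_one (by positivity)]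
          exact h6
        linarith

end Pool.Agent.K6.H82.RW
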