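import Pool.Agent.K6.H47.SG.Irr
import Pool.Agent.K6.H82.RW.Esc2

set_option autoImplicit false

/-! # Polynomial functions on groups of matrices and subgroups of finite index -/

namespace Pool.Agent.K6.H82.RW

open Pool.Agent.K6.H47.SG Matrix

variable {K : Type} [Field K] {H : Type} [Group H] {r : ℕ}

theorem pol_comp {G : Type} [Group G] (ρ : H →* GL (Fin r) K) (φ : G →* H) {f : H → K}
    (hf : f ∈ pol ρ) : (fun x => f (φ x)) ∈ pol (ρ.comp φ) := by
  obtain ⟨P, hP⟩ := pol_poly ρ hf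
  have h1 := poly_pol (ρ.comp φ) P
  have h2 : (fun x => f (φ x)) =
      fun h => MvPolynomial.aeval (fun p : Fin r × Fin r => ((ρ.comp φ) h : Mt r K) p.1 p.2) P := by
    funext x
    exact hP (φ x)
  rw [h2]
  exact h1

theorem pol_ext {G : Type} [Group G] (ρ : H →* GL (Fin r) K) (φ : G →* H) {f : G → K}
    (hf : f ∈ pol (ρ.comp φ)) : ∃ f' ∈ pol ρ, ∀ x, f x = f' (φ x) := by
  obtain ⟨P, hP⟩ := pol_poly _ hf
  exact ⟨_, poly_pol ρ P, hP⟩

theorem pol_lam (ρ : H →* GL (Fin r) K) (g : H) {f : H → K} (hf : f ∈ pol ρ) :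
    lam g f ∈ pol ρ := by
  unfold pol at hf
  induction hf using Algebra.adjoin_induction with
  | mem x hx =>
    obtain ⟨⟨i, j⟩, rfl⟩ := hx
    have : lam g (fun h => (ρ h : Mt r K) i j) =
        ∑ l, (ρ g : Mt r K) i l • fun h => (ρ h : Mt r K) l j := by
      funext x
      rw [Finset.sum_apply]
      change (ρ (g * x) : Mt r K) i j = _
      rw [map_mul, GeneralLinearGroup.coe_mul, mul_apply]
      rfl
    rw [this]
    exact sum_mem fun l _ => Subalgebra.smul_mem _ (pol_ent ρ l j) _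
  | algebraMap c => exact (pol ρ).algebraMap_mem c
  | add x y _ _ hx hy => rw [map_add]; exact add_mem hx hy
  | mul x y _ _ hx hy => rw [map_mul]; exact mul_mem hx hy

theorem pol_right (ρ : H →* GL (Fin r) K) (g : H) {f : H → K} (hf : f ∈ pol ρ) :
    (fun h => f (h * g)) ∈ pol ρ := by
  unfold pol at hf
  induction hf using Algebra.adjoin_induction with
  | mem x hx =>
    obtain ⟨⟨i, j⟩, rfl⟩ := hx
    have : (fun h => (ρ (h * g) : Mt r K) i j) =
        ∑ l, (ρ g : Mt r K) l j • fun h => (ρ h : Mt r K) i l := by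
      funext x
      rw [Finset.sum_apply, map_mul, GeneralLinearGroup.coe_mul, mul_apply]
      exact Finset.sum_congr rfl fun l _ => mul_comm _ _
    change (fun h => (ρ (h * g) : Mt r K) i j) ∈ _
    rw [this]
    exact sum_mem fun l _ => Subalgebra.smul_mem _ (pol_ent ρ i l) _
  | algebraMap c => exact (pol ρ).algebraMap_mem c
  | add x y _ _ hx hy => exact add_mem hx hy
  | mul x y _ _ hx hy => exact mul_mem hx hy

/-- in an irreducible group, a product of polynomial functions is zero only if one of them is -/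
theorem irr_prod (ρ : H →* GL (Fin r) K) (hρ : Irr ρ) {ι : Type} (D : Finset ι) (f : ι → H → K)
    (hf : ∀ i ∈ D, f i ∈ pol ρ) (h0 : ∀ h, ∏ i ∈ D, f i h = 0) : ∃ i ∈ D, ∀ h, f i h = 0 := by
  classical
  induction D using Finset.induction_on with
  | empty =>
    have := h0 1
    rw [Finset.prod_empty] at this
    exact absurd this one_ne_zero
  | insert i D hi ih =>
    have hmem : (fun t => ∏ c ∈ D, f c t) ∈ pol ρ := by
      have : (fun t => ∏ c ∈ D, f c t) = ∏ c ∈ D, f c := by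
        funext t
        rw [Finset.prod_apply]
      rw [this]
      exact (pol ρ).prod_mem fun c hc => hf c (Finset.mem_insert_of_mem hc)
    rcases hρ _ (hf i (Finset.mem_insert_self _ _)) _ hmem (fun t => by
      have := h0 t
      rwa [Finset.prod_insert hi] at this) with h4 | h4
    · exact ⟨i, Finset.mem_insert_self _ _, h4⟩
    · obtain ⟨j, hj, h5⟩ := ih (fun j hj => hf j (Finset.mem_insert_of_mem hj)) h4
      exact ⟨j, Finset.mem_insert_of_mem hj, h5⟩

/-- A polynomial function which vanishes on a subgroup of finite index vanishes on the irreducible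
subgroup. -/
theorem vanish (ρ : H →* GL (Fin r) K) (N₁ N' : Subgroup H) (hN₁ : Irr (ρ.comp N₁.subtype))
    (hN' : N'.FiniteIndex) {f : H → K} (hf : f ∈ pol ρ) (h0 : ∀ h ∈ N', f h = 0) :
    ∀ h ∈ N₁, f h = 0 := by
  classical
  let S : Subgroup N₁ := N'.subgroupOf N₁
  have hS : S.FiniteIndex := inferInstanceAs (N'.subgroupOf N₁).FiniteIndex
  have : Finite (N₁ ⧸ S) := inferInstance
  have : Fintype (N₁ ⧸ S) := Fintype.ofFinite _
  obtain ⟨q, -, hq⟩ := irr_prod (ρ.comp N₁.subtype) hN₁ (Finset.univ : Finset (N₁ ⧸ S))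
    (fun q h => f (((q.out)⁻¹ * h : N₁) : H)) (fun q _ => by
      have h1 := pol_comp ρ N₁.subtype (pol_lam ρ (((q.out)⁻¹ : N₁) : H) hf)
      exact h1) (fun h => by
      apply Finset.prod_eq_zero (Finset.mem_univ (QuotientGroup.mk h : N₁ ⧸ S))
      apply h0
      have h2 : ((QuotientGroup.mk h : N₁ ⧸ S).out)⁻¹ * h ∈ S := by
        rw [← QuotientGroup.eq, QuotientGroup.out_eq']
      exact Subgroup.mem_subgroupOf.1 h2)
  intro h hh
  have h1 := hq ((q.out) * ⟨h, hh⟩)
  rw [inv_mul_cancel_left] at h1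
  exact h1

/-- subgroups of finite index of irreducible groups are irreducible -/
theorem irr_sub (ρ : H →* GL (Fin r) K) (N₁ N : Subgroup H) (hN₁ : Irr (ρ.comp N₁.subtype))
    (hN : N.FiniteIndex) (hle : N ≤ N₁) : Irr (ρ.comp N.subtype) := by
  intro f hf g hg hfg
  obtain ⟨f', hf', hf''⟩ := pol_ext ρ N.subtype hf
  obtain ⟨g', hg', hg''⟩ := pol_ext ρ N.subtype hg
  have h1 := vanish ρ N₁ N hN₁ hN (mul_mem hf' hg') (fun h hh => by
    have := hfg ⟨h, hh⟩
    rw [hf'', hg''] at this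
    exact this)
  rcases hN₁ _ (pol_comp ρ N₁.subtype hf') _ (pol_comp ρ N₁.subtype hg')
    (fun h => h1 h h.2) with h2 | h2
  · left
    intro t
    rw [hf'']
    exact h2 ⟨t, hle t.2⟩
  · right
    intro t
    rw [hg'']
    exact h2 ⟨t, hle t.2⟩

/-! ### Linear functionals -/

theorem dual_pol (ρ : H →* GL (Fin r) K) (F : Submodule K (H → K)) [FiniteDimensional K F]
    (hF : ∀ g, T g F ≤ F) (hFp : ∀ f ∈ F, f ∈ pol ρ) (φ : Module.Dual K F) {f : H → K}
    (hf : f ∈ F) : (fun h => φ ⟨lam h f, hF h (mem_T.2 ⟨f, hf, rfl⟩)⟩) ∈ pol ρ := by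
  have htop : Submodule.span K (Set.range fun (y : H) =>
      ((LinearMap.proj y : (H → K) →ₗ[K] K).comp F.subtype)) = ⊤ := by
    apply Submodule.span_eq_top_of_ne_zero
    intro z hz
    have h1 : (z : H → K) ≠ 0 := fun h => hz (Subtype.ext h)
    obtain ⟨y, hy⟩ := Function.ne_iff.1 h1
    exact ⟨_, ⟨y, rfl⟩, hy⟩
  have hφ : φ ∈ Submodule.span K (Set.range fun (y : H) =>
      ((LinearMap.proj y : (H → K) →ₗ[K] K).comp F.subtype)) := by
    rw [htop]; trivial
  induction hφ using Submodule.span_induction with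
  | mem ψ hψ =>
    obtain ⟨y, rfl⟩ := hψ
    exact pol_right ρ y (hFp f hf)
  | zero => exact (pol ρ).zero_mem
  | add a b _ _ ha hb => exact (pol ρ).add_mem ha hb
  | smul c a _ ha => exact (pol ρ).smul_mem ha c

/-- spaces of polynomial functions stable under a subgroup of finite index are stable under the
irreducible subgroup -/
theorem stab (ρ : H →* GL (Fin r) K) (N₁ : Subgroup H) (hN₁ : Irr (ρ.comp N₁.subtype))
    (F : Submodule K (H → K)) [FiniteDimensional K F]
    (hF : ∀ g, T g F ≤ F) (hFp : ∀ f ∈ F, f ∈ pol ρ) (J : Submodule K (H → K)) (hJ : J ≤ F)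
    (N' : Subgroup H) (hN' : N'.FiniteIndex) (hs : ∀ ν ∈ N', T ν J ≤ J) :
    ∀ ν ∈ N₁, T ν J ≤ J := by
  intro ν hν w hw
  obtain ⟨f, hf, rfl⟩ := mem_T.1 hw
  by_contra hcon
  have hmem : ∀ h, lam h f ∈ F := fun h => hF h (mem_T.2 ⟨f, hJ hf, rfl⟩)
  have hcon' : (⟨lam ν f, hmem ν⟩ : F) ∉ J.comap F.subtype := hcon
  obtain ⟨φ, hφ1, hφ2⟩ := Submodule.exists_dual_map_eq_bot_of_notMem hcon' inferInstance
  have h1 := vanish ρ N₁ N' hN₁ hN' (dual_pol ρ F hF hFp φ (hJ hf)) (fun h hh => by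
    have h2 : (⟨lam h f, hmem h⟩ : F) ∈ J.comap F.subtype := hs h hh (mem_T.2 ⟨f, hf, rfl⟩)
    have h3 : φ ⟨lam h f, hmem h⟩ ∈ (J.comap F.subtype).map φ := Submodule.mem_map_of_mem h2
    rw [hφ2] at h3
    exact (Submodule.mem_bot K).1 h3) ν hν
  exact hφ1 h1

/-! ### Polynomial functions of bounded degree -/

/-- functions of degree at most one -/
def E1 (ρ : H →* GL (Fin r) K) : Submodule K (H → K) :=
  Submodule.span K (insert 1 (Set.range fun (p : Fin r × Fin r) (h : H) => (ρ h : Mt r K) p.1 p.2))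

theorem E1_fg (ρ : H →* GL (Fin r) K) : (E1 ρ).FG :=
  Submodule.fg_span ((Set.finite_range _).insert _)

theorem one_mem_E1 (ρ : H →* GL (Fin r) K) : (1 : H → K) ∈ E1 ρ :=
  Submodule.subset_span (Set.mem_insert _ _)

theorem ent_mem_E1 (ρ : H →* GL (Fin r) K) (i j : Fin r) :
    (fun h => (ρ h : Mt r K) i j) ∈ E1 ρ :=
  Submodule.subset_span (Set.mem_insert_of_mem _ ⟨(i, j), rfl⟩)

theorem E1_stab (ρ : H →* GL (Fin r) K) (g : H) : T g (E1 ρ) ≤ E1 ρ := by
  unfold T
  conv_lhs => rw [E1]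
  rw [Submodule.map_span, Submodule.span_le]
  rintro _ ⟨f, hf, rfl⟩
  rcases Set.mem_insert_iff.1 hf with rfl | ⟨⟨i, j⟩, rfl⟩
  · exact one_mem_E1 ρ
  · have : (lam g).toLinearMap (fun h => (ρ h : Mt r K) i j) =
        ∑ l, (ρ g : Mt r K) i l • fun h => (ρ h : Mt r K) l j := by
      funext x
      rw [Finset.sum_apply]
      change (ρ (g * x) : Mt r K) i j = _
      rw [map_mul, GeneralLinearGroup.coe_mul, mul_apply]
      rfl
    change (lam g).toLinearMap (fun h => (ρ h : Mt r K) i j) ∈ _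
    rw [this]
    exact Submodule.sum_mem _ fun l _ => Submodule.smul_mem _ _ (ent_mem_E1 ρ l j)

theorem Ed_stab (ρ : H →* GL (Fin r) K) (d : ℕ) (g : H) : T g (E1 ρ ^ d) ≤ E1 ρ ^ d := by
  unfold T
  rw [Submodule.map_pow]
  exact pow_le_pow_left' (E1_stab ρ g) d

theorem E1_pol (ρ : H →* GL (Fin r) K) : E1 ρ ≤ Subalgebra.toSubmodule (pol ρ) := by
  unfold E1
  rw [Submodule.span_le]
  rintro f hf
  rcases Set.mem_insert_iff.1 hf with rfl | ⟨⟨i, j⟩, rfl⟩
  · exact (pol ρ).one_mem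
  · exact pol_ent ρ i j

theorem Ed_pol (ρ : H →* GL (Fin r) K) (d : ℕ) : ∀ f ∈ E1 ρ ^ d, f ∈ pol ρ := by
  have : E1 ρ ^ d ≤ Subalgebra.toSubmodule (pol ρ) := by
    induction d with
    | zero =>
      rw [pow_zero, Submodule.one_le]
      exact (pol ρ).one_mem
    | succ d ih =>
      rw [pow_succ, Submodule.mul_le]
      intro a ha b hb
      exact (pol ρ).mul_mem (ih ha) (E1_pol ρ hb)
  exact fun f hf => this hf

theorem Ed_mono (ρ : H →* GL (Fin r) K) {d e : ℕ} (h : d ≤ e) : E1 ρ ^ d ≤ E1 ρ ^ e := by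
  apply pow_le_pow_right' _ h
  rw [Submodule.one_le]
  exact one_mem_E1 ρ

/-- the coordinates of the points of an orbit -/
theorem coord_mem (ρ : H →* GL (Fin r) K) {n : ℕ} (M : Matrix (Fin n) (Fin r) K) (v : Fin r → K)
    (i : Fin n) : (fun h => M.mulVec ((ρ h : Mt r K).mulVec v) i) ∈ E1 ρ := by
  have : (fun h => M.mulVec ((ρ h : Mt r K).mulVec v) i) =
      ∑ j, ∑ l, (M i j * v l) • fun h => (ρ h : Mt r K) j l := by
    funext h
    simp only [Finset.sum_apply, mulVec, dotProduct, Pi.smul_apply, smul_eq_mul, Finset.mul_sum]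
    refine Finset.sum_congr rfl fun j _ => Finset.sum_congr rfl fun l _ => ?_
    ring
  rw [this]
  exact Submodule.sum_mem _ fun j _ => Submodule.sum_mem _ fun l _ =>
    Submodule.smul_mem _ _ (ent_mem_E1 ρ j l)

theorem form_mem (ρ : H →* GL (Fin r) K) {k : Type} [Field k] [Algebra k K] {n : ℕ} (φ : H → Fin n → K)
    (hφ : ∀ i, (fun h => φ h i) ∈ E1 ρ) (F : MvPolynomial (Fin n) k) {d : ℕ}
    (hF : F.totalDegree ≤ d) : (fun h => MvPolynomial.aeval (φ h) F) ∈ E1 ρ ^ d := by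
  classical
  have h1 : (fun h => MvPolynomial.aeval (φ h) F) =
      ∑ m ∈ F.support, algebraMap k K (F.coeff m) • ∏ i, (fun h => φ h i) ^ (m i) := by
    funext h
    rw [MvPolynomial.aeval_def, MvPolynomial.eval₂_eq', Finset.sum_apply]
    refine Finset.sum_congr rfl fun m _ => ?_
    rw [Pi.smul_apply, smul_eq_mul, Finset.prod_apply]
    rfl
  rw [h1]
  refine Submodule.sum_mem _ fun m hm => Submodule.smul_mem _ _ ?_
  have h2 : ∑ i, m i ≤ d := by
    have h3 := MvPolynomial.le_totalDegree hm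
    rw [Finsupp.sum_fintype _ _ (fun _ => rfl)] at h3
    exact h3.trans hF
  refine Ed_mono ρ h2 ?_
  have h3 : ∀ D : Finset (Fin n), ∏ i ∈ D, (fun h => φ h i) ^ (m i) ∈ E1 ρ ^ (∑ i ∈ D, m i) := by
    intro D
    induction D using Finset.induction_on with
    | empty =>
      rw [Finset.prod_empty, Finset.sum_empty, pow_zero]
      exact Submodule.one_le.1 le_rfl
    | insert i D hi ih =>
      rw [Finset.prod_insert hi, Finset.sum_insert hi, pow_add]
      exact Submodule.mul_mem_mul (Submodule.pow_mem_pow _ (hφ i) _) ih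
  exact h3 Finset.univ

end Pool.Agent.K6.H82.RW
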