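import Mathlib

set_option autoImplicit false

/-! # Finitely additive probability measures which are almost stationary -/

namespace Pool.Agent.K6.H82.RW

variable {H : Type}

/-- finitely additive probability measures -/
structure IsMean (π : Set H → ℝ) : Prop where
  nonneg : ∀ S, 0 ≤ π S
  univ : π Set.univ = 1
  add : ∀ S T, Disjoint S T → π (S ∪ T) = π S + π T

/-- almost stationary measures -/
def Stat {A : Type} [Fintype A] [Group H] (x : A → H) (p : A → ℝ) (η : ℝ) (π : Set H → ℝ) : Prop :=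
  ∀ S, π S ≤ ∑ a, p a * π {h | x a * h ∈ S} + η

variable {π : Set H → ℝ}

theorem IsMean.empty (hπ : IsMean π) : π ∅ = 0 := by
  have := hπ.add ∅ ∅ (Set.disjoint_empty _)
  rw [Set.union_empty] at this
  linarith

theorem IsMean.mono (hπ : IsMean π) {S T : Set H} (h : S ⊆ T) : π S ≤ π T := by
  have h1 := hπ.add S (T \ S) Set.disjoint_sdiff_right
  rw [Set.union_sdiff_cancel h] at h1
  have := hπ.nonneg (T \ S)
  linarith

theorem IsMean.le_one (hπ : IsMean π) (S : Set H) : π S ≤ 1 := by
  rw [← hπ.univ]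
  exact hπ.mono (Set.subset_univ S)

theorem IsMean.union_inter (hπ : IsMean π) (S T : Set H) :
    π (S ∪ T) + π (S ∩ T) = π S + π T := by
  have h1 := hπ.add S (T \ S) Set.disjoint_sdiff_right
  have h2 := hπ.add (S ∩ T) (T \ S) (by
    rw [Set.disjoint_left]
    rintro y ⟨h3, -⟩ ⟨-, h4⟩
    exact h4 h3)
  have h3 : S ∪ T \ S = S ∪ T := Set.union_sdiff_self
  have h4 : S ∩ T ∪ T \ S = T := by
    rw [Set.inter_comm]
    exact Set.inter_union_sdiff T S
  rw [h3] at h1
  rw [h4] at h2
  linarith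

theorem IsMean.biUnion_le (hπ : IsMean π) {ι : Type} [DecidableEq ι] (D : Finset ι)
    (S : ι → Set H) : π (⋃ i ∈ D, S i) ≤ ∑ i ∈ D, π (S i) := by
  induction D using Finset.induction_on with
  | empty =>
    rw [Finset.sum_empty]
    simp only [Finset.notMem_empty, Set.iUnion_of_empty, Set.iUnion_empty]
    exact hπ.empty.le
  | insert i D hi ih =>
    rw [Finset.sum_insert hi, Finset.set_biUnion_insert]
    have h1 := hπ.union_inter (S i) (⋃ j ∈ D, S j)
    have h2 := hπ.nonneg (S i ∩ ⋃ j ∈ D, S j)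
    linarith

/-- a union bound from below -/
theorem IsMean.bonf (hπ : IsMean π) {ι : Type} [DecidableEq ι] (D : Finset ι) (S : ι → Set H) :
    ∑ i ∈ D, π (S i) ≤ 1 + ∑ q ∈ D.offDiag, π (S q.1 ∩ S q.2) := by
  have key : ∑ i ∈ D, π (S i) ≤ π (⋃ i ∈ D, S i) + ∑ q ∈ D.offDiag, π (S q.1 ∩ S q.2) := by
    induction D using Finset.induction_on with
    | empty =>
      rw [Finset.sum_empty]
      exact add_nonneg (hπ.nonneg _) (Finset.sum_nonneg fun _ _ => hπ.nonneg _)
    | insert i D hi ih =>
      rw [Finset.sum_insert hi, Finset.set_biUnion_insert]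
      have h1 := hπ.union_inter (S i) (⋃ j ∈ D, S j)
      have h2 : π (S i ∩ ⋃ j ∈ D, S j) ≤ ∑ j ∈ D, π (S i ∩ S j) := by
        rw [Set.inter_iUnion₂]
        exact hπ.biUnion_le D fun j => S i ∩ S j
      have h3 : ∑ q ∈ D.offDiag, π (S q.1 ∩ S q.2) + ∑ j ∈ D, π (S i ∩ S j) ≤
          ∑ q ∈ (insert i D).offDiag, π (S q.1 ∩ S q.2) := by
        have h4 : ∑ j ∈ D, π (S i ∩ S j) = ∑ q ∈ ({i} : Finset ι) ×ˢ D, π (S q.1 ∩ S q.2) := by
          rw [Finset.sum_product, Finset.sum_singleton]
        rw [h4, ← Finset.sum_union]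
        · refine Finset.sum_le_sum_of_subset_of_nonneg ?_ fun _ _ _ => hπ.nonneg _
          intro q hq
          rw [Finset.offDiag_insert hi]
          rcases Finset.mem_union.1 hq with h | h
          · exact Finset.mem_union_left _ (Finset.mem_union_left _ h)
          · exact Finset.mem_union_left _ (Finset.mem_union_right _ h)
        · rw [Finset.disjoint_left]
          intro q h5 h6
          obtain ⟨h7, -, -⟩ := Finset.mem_offDiag.1 h5
          obtain ⟨h8, -⟩ := Finset.mem_product.1 h6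
          rw [Finset.mem_singleton] at h8
          exact hi (h8 ▸ h7)
      linarith
  have := hπ.le_one (⋃ i ∈ D, S i)
  linarith

end Pool.Agent.K6.H82.RW
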