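import Pool.Agent.K6.H82.RW.Exp
import Pool.Agent.K6.H82.RW.Mean

set_option autoImplicit false

/-! # Random walks give almost stationary means -/

namespace Pool.Agent.K6.H82.RW

variable {H : Type} [Group H] {A : Type} [Fintype A] (x : A → H) (p : A → ℝ)

theorem ind_univ (h : H) : ind Set.univ h = 1 := by
  unfold ind
  rw [Set.indicator_univ]
  rfl

theorem ind_union {S T : Set H} (hST : Disjoint S T) (h : H) :
    ind (S ∪ T) h = ind S h + ind T h := by
  unfold ind
  rw [Set.indicator_union_of_disjoint hST]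

theorem ind_mul (g h : H) (S : Set H) : ind S (g * h) = ind {h | g * h ∈ S} h := by
  unfold ind
  by_cases hh : g * h ∈ S
  · rw [Set.indicator_of_mem hh, Set.indicator_of_mem (show h ∈ {h | g * h ∈ S} from hh)]; rfl
  · rw [Set.indicator_of_notMem hh, Set.indicator_of_notMem (show h ∉ {h | g * h ∈ S} from hh)]

/-- the law of the random word of length `m` -/
theorem law_mean (hp : ∀ a, 0 ≤ p a) (h1 : ∑ a, p a = 1) (m : ℕ) :
    IsMean fun S => E x p m (ind S) where
  nonneg := fun S => by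
    have := E_mono x p hp m (fun _ => 0) (ind S) (ind_nonneg S)
    rwa [E_zero] at this
  univ := by
    rw [funext ind_univ]
    exact E_one x p h1 m
  add := fun S T hST => by
    rw [funext (ind_union hST)]
    exact E_add x p m _ _

/-- the average of the laws for a window of time -/
theorem av_mean (hp : ∀ a, 0 ≤ p a) (h1 : ∑ a, p a = 1) (s L : ℕ) (hL : 0 < L) :
    IsMean fun S => Av x p s L (ind S) where
  nonneg := fun S => Av_nonneg x p hp s L _ (ind_nonneg S)
  univ := by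
    rw [funext ind_univ]
    exact Av_one x p h1 s L hL
  add := fun S T hST => by
    rw [funext (ind_union hST)]
    exact Av_add x p s L _ _

theorem av_stat (hp : ∀ a, 0 ≤ p a) (h1 : ∑ a, p a = 1) (s L : ℕ) (hL : 0 < L) :
    Stat x p (1 / L) fun S => Av x p s L (ind S) := by
  intro S
  have h := Av_step x p hp h1 s L hL (ind S) (ind_nonneg S) (ind_le_one S)
  simp only [ind_mul] at h
  exact h

/-- If one of the generators is `1`, the laws at the times `m` and `m + 1` are close to each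
other. -/
theorem lazy (hp : ∀ a, 0 < p a) (h1 : ∑ a, p a = 1) (a₀ : A) (ha₀ : x a₀ = 1) :
    ∀ ε : ℝ, 0 < ε → ∃ m₀ : ℕ, ∀ m ≥ m₀, ∀ f : H → ℝ, (∀ y, 0 ≤ f y) → (∀ y, f y ≤ 1) →
      E x p (m + 1) f - E x p m f ≤ ε := by
  classical
  have hp' : ∀ a, 0 ≤ p a := fun a => (hp a).le
  obtain ⟨S, hS⟩ : ∃ S : Set ℝ, ∀ c, c ∈ S ↔ 0 ≤ c ∧ ∃ m₀ : ℕ, ∀ m ≥ m₀, ∀ f : H → ℝ,
      (∀ y, 0 ≤ f y) → (∀ y, f y ≤ 1) → E x p (m + 1) f - E x p m f ≤ c :=
    ⟨{c | 0 ≤ c ∧ ∃ m₀ : ℕ, ∀ m ≥ m₀, ∀ f : H → ℝ,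
      (∀ y, 0 ≤ f y) → (∀ y, f y ≤ 1) → E x p (m + 1) f - E x p m f ≤ c}, fun _ => Iff.rfl⟩
  have hE0 : ∀ m (f : H → ℝ), (∀ y, 0 ≤ f y) → 0 ≤ E x p m f := by
    intro m f hf
    have := E_mono x p hp' m (fun _ => 0) f hf
    rwa [E_zero] at this
  have hE1 : ∀ m (f : H → ℝ), (∀ y, f y ≤ 1) → E x p m f ≤ 1 := by
    intro m f hf
    have := E_mono x p hp' m f (fun _ => 1) hf
    rwa [E_one x p h1] at this
  have hS1 : (1 : ℝ) ∈ S := by
    rw [hS]
    refine ⟨zero_le_one, 0, fun m _ f hf0 hf1 => ?_⟩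
    have h2 := hE0 m f hf0
    have h3 := hE1 (m + 1) f hf1
    linarith
  have hSb : ∀ c ∈ S, 0 ≤ c := fun c hc => ((hS c).1 hc).1
  have hSb' : BddBelow S := ⟨0, fun c hc => hSb c hc⟩
  obtain ⟨b, hb⟩ : ∃ b, b = sInf S := ⟨_, rfl⟩
  have hb0 : 0 ≤ b := by rw [hb]; exact le_csInf ⟨1, hS1⟩ hSb
  rcases hb0.eq_or_lt with hb1 | hb1
  · intro ε hε
    obtain ⟨c, hc, hcε⟩ := exists_lt_of_csInf_lt ⟨1, hS1⟩ (show sInf S < ε by
      rw [← hb, ← hb1]; exact hε)
    obtain ⟨-, m₀, h⟩ := (hS c).1 hc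
    exact ⟨m₀, fun m hm f hf0 hf1 => (h m hm f hf0 hf1).trans hcε.le⟩
  · exfalso
    have hα : 0 < p a₀ := hp a₀
    have hα1 : p a₀ ≤ 1 := by
      have h2 : p a₀ ≤ ∑ a, p a := Finset.single_le_sum (fun a _ => hp' a) (Finset.mem_univ a₀)
      linarith
    have hq1 : 1 ≤ 2 / p a₀ := by
      rw [le_div_iff₀ hα]
      linarith
    obtain ⟨n, hn⟩ : ∃ n : ℕ, 2 / b < n := exists_nat_gt _
    have hnb : 2 < n * b := by rwa [div_lt_iff₀ hb1] at hn
    obtain ⟨δ, hδ⟩ : ∃ δ : ℝ, δ = b / 2 * (p a₀ / 2) ^ n := ⟨_, rfl⟩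
    have hδ0 : 0 < δ := by rw [hδ]; positivity
    have hδn : (2 / p a₀) ^ n * δ = b / 2 := by
      rw [hδ, mul_left_comm, ← mul_pow]
      have : 2 / p a₀ * (p a₀ / 2) = 1 := by field_simp
      rw [this, one_pow, mul_one]
    have hδi : ∀ i ≤ n, δ ≤ (2 / p a₀) ^ i * δ ∧ (2 / p a₀) ^ i * δ ≤ b / 2 := by
      intro i hi
      have h2 : 1 ≤ (2 / p a₀) ^ i := one_le_pow₀ hq1
      refine ⟨by nlinarith, ?_⟩
      rw [← hδn]
      exact mul_le_mul_of_nonneg_right (pow_le_pow_right₀ hq1 hi) hδ0.le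
    obtain ⟨c, hc, hcb⟩ := exists_lt_of_csInf_lt ⟨1, hS1⟩ (show sInf S < b + δ by
      rw [← hb]; linarith)
    obtain ⟨-, m₁, hm₁⟩ := (hS c).1 hc
    have hnot : b - δ ∉ S := fun h => by
      have h2 := csInf_le hSb' h
      rw [← hb] at h2
      linarith
    rw [hS] at hnot
    push Not at hnot
    have hδb : 0 ≤ b - δ := by
      have := hδi 0 (Nat.zero_le _)
      rw [pow_zero, one_mul] at this
      linarith [this.2]
    obtain ⟨m, hm, f, hf0, hf1, hlow⟩ := hnot hδb (m₁ + n)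
    obtain ⟨t, rfl⟩ : ∃ t, m = t + n := ⟨m - n, by omega⟩
    have ht : m₁ ≤ t := by omega
    have key : ∀ i j : ℕ, i + j = n →
        b - (2 / p a₀) ^ i * δ ≤ E x p (t + j + 1) f - E x p (t + j) f := by
      intro i
      induction i with
      | zero =>
        intro j hj
        rw [zero_add] at hj
        subst hj
        rw [pow_zero, one_mul]
        exact hlow.le
      | succ i ih =>
        intro j hj
        have h2 := ih (j + 1) (by omega)
        have h3 : E x p (t + (j + 1) + 1) f - E x p (t + (j + 1)) f =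
            ∑ a, p a * (E x p (t + j + 1) (fun h => f (x a * h)) -
              E x p (t + j) (fun h => f (x a * h))) := by
          rw [show t + (j + 1) + 1 = (t + j + 1) + 1 by ring, show t + (j + 1) = (t + j) + 1 by ring]
          rw [E, E, ← Finset.sum_sub_distrib]
          exact Finset.sum_congr rfl fun a _ => (mul_sub _ _ _).symm
        rw [h3, ← Finset.add_sum_erase _ _ (Finset.mem_univ a₀)] at h2
        have h4 : ∑ a ∈ Finset.univ.erase a₀, p a * (E x p (t + j + 1) (fun h => f (x a * h)) -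
              E x p (t + j) (fun h => f (x a * h))) ≤
            ∑ a ∈ Finset.univ.erase a₀, p a * (b + δ) :=
          Finset.sum_le_sum fun a _ => mul_le_mul_of_nonneg_left
            ((hm₁ (t + j) (by omega) _ (fun _ => hf0 _) (fun _ => hf1 _)).trans hcb.le) (hp' a)
        rw [← Finset.sum_mul] at h4
        have h5 : ∑ a ∈ Finset.univ.erase a₀, p a = 1 - p a₀ := by
          have := Finset.add_sum_erase Finset.univ p (Finset.mem_univ a₀)
          linarith
        rw [h5] at h4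
        simp only [ha₀, one_mul] at h2
        obtain ⟨D, hD⟩ : ∃ D, D = E x p (t + j + 1) f - E x p (t + j) f := ⟨_, rfl⟩
        rw [← hD] at h2 ⊢
        obtain ⟨h6, -⟩ := hδi i (by omega)
        have h7 : p a₀ * (b - (2 / p a₀) ^ (i + 1) * δ) ≤ p a₀ * D := by
          have h8 : p a₀ * ((2 / p a₀) ^ (i + 1) * δ) = 2 * ((2 / p a₀) ^ i * δ) := by
            rw [pow_succ]
            field_simp
          have h9 : 0 ≤ p a₀ * δ := mul_nonneg hα.le hδ0.le
          nlinarith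
        exact le_of_mul_le_mul_left h7 hα
    have hsum : ∑ j ∈ Finset.range n, (E x p (t + j + 1) f - E x p (t + j) f) ≤ 1 := by
      have h2 := Finset.sum_range_sub (fun j => E x p (t + j) f) n
      have h3 : ∑ j ∈ Finset.range n, (E x p (t + j + 1) f - E x p (t + j) f) =
          E x p (t + n) f - E x p (t + 0) f := by
        rw [← h2]
        rfl
      rw [h3]
      have h4 := hE0 (t + 0) f hf0
      have h5 := hE1 (t + n) f hf1
      linarith
    have hlow' : (n : ℝ) * (b / 2) ≤ ∑ j ∈ Finset.range n, (E x p (t + j + 1) f - E x p (t + j) f) := by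
      have h4 : ∑ _j ∈ Finset.range n, b / 2 ≤
          ∑ j ∈ Finset.range n, (E x p (t + j + 1) f - E x p (t + j) f) := by
        refine Finset.sum_le_sum fun j hj => ?_
        have h5 := key (n - j) j (by have := Finset.mem_range.1 hj; omega)
        have h6 := (hδi (n - j) (Nat.sub_le _ _)).2
        linarith
      rwa [Finset.sum_const, Finset.card_range, nsmul_eq_mul] at h4
    linarith

theorem lazy_stat (hp : ∀ a, 0 < p a) (h1 : ∑ a, p a = 1) (a₀ : A) (ha₀ : x a₀ = 1) {ε : ℝ}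
    (hε : 0 < ε) : ∃ m₀ : ℕ, ∀ m ≥ m₀, Stat x p ε fun S => E x p m (ind S) := by
  obtain ⟨m₀, h⟩ := lazy x p hp h1 a₀ ha₀ ε hε
  refine ⟨m₀, fun m hm S => ?_⟩
  have h2 := h m hm (ind Sᶜ) (ind_nonneg _) (ind_le_one _)
  have hc : ∀ m, E x p m (ind Sᶜ) = 1 - E x p m (ind S) := by
    intro m
    have hm := law_mean x p (fun a => (hp a).le) h1 m
    have h3 := hm.add S Sᶜ disjoint_compl_right
    rw [Set.union_compl_self, hm.univ] at h3
    linarith
  rw [hc, hc] at h2
  have h4 : ∑ a, p a * E x p m (ind {h | x a * h ∈ S}) = E x p (m + 1) (ind S) := by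
    rw [E]
    simp only [ind_mul]
  change E x p m (ind S) ≤ ∑ a, p a * E x p m (ind {h | x a * h ∈ S}) + ε
  rw [h4]
  linarith

end Pool.Agent.K6.H82.RW
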