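import Pool.Agent.K6.H47.SG.Grp
import Pool.Agent.K6.H82.RW.Poly
import Pool.Agent.K6.H82.RW.Walk

set_option autoImplicit false

/-! # Random walks and varieties without rational curves -/

namespace Pool.Agent.K6.H82.RW

open Pool.Agent.K6.H47.SG Matrix Pool.Agent.TH717.GO

variable {K : Type} [Field K] {H : Type} [Group H] {r : ℕ} {A : Type} [Fintype A]

/-- The main theorem, for a group with generators `x a`. -/
theorem app (ρ : H →* GL (Fin r) K) (x : A → H) (hx : Subgroup.closure (Set.range x) = ⊤) :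
    ∃ B : ℕ, ∀ d : ℕ, ∃ η : (A → ℝ) → ℝ → ℝ, (∀ p ε, 0 < η p ε) ∧
      ∀ (k : Type) [Field k] [Algebra k K] (n : ℕ)
      (FF : Set (MvPolynomial (Fin (n + 1)) k)), Setup k n FF K → (∀ F ∈ FF, F.totalDegree ≤ d) →
      ∀ (M : Matrix (Fin (n + 1)) (Fin r) K) (v : Fin r → K),
      ∃ C : Finset (Projectivization K (Fin (n + 1) → K)), C.card ≤ B ∧
        ∀ p : A → ℝ, (∀ a, 0 < p a) → ∑ a, p a = 1 → ∀ ε : ℝ, 0 < ε →
        ∀ π : Set H → ℝ, IsMean π → Stat x p (η p ε) π →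
        π {h | ∃ h0 : orb M ρ v h ≠ 0,
          (∀ F ∈ FF, MvPolynomial.aeval (orb M ρ v h) F = 0) ∧
          Projectivization.mk K (orb M ρ v h) h0 ∉ C} ≤ ε := by
  classical
  obtain ⟨N₁, I, hirr, hI⟩ := exists_irr ρ
  have hN₁ : N₁.FiniteIndex := by
    have hsurj : Function.Surjective (fun g : I => (QuotientGroup.mk (g : H) : H ⧸ N₁)) := by
      intro q
      obtain ⟨h, rfl⟩ := QuotientGroup.mk_surjective q
      obtain ⟨g, hg, hgh⟩ := hI h
      exact ⟨⟨g, hg⟩, QuotientGroup.eq.2 hgh⟩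
    have : Finite (H ⧸ N₁) := Finite.of_surjective _ hsurj
    exact Subgroup.finiteIndex_of_finite_quotient
  obtain ⟨N, hNdef⟩ : ∃ N, N = N₁.normalCore := ⟨_, rfl⟩
  have hNn : N.Normal := by rw [hNdef]; exact Subgroup.normalCore_normal _
  have hNf : N.FiniteIndex := by rw [hNdef]; exact Subgroup.finiteIndex_normalCore _
  have hle : N ≤ N₁ := by rw [hNdef]; exact Subgroup.normalCore_le _
  have hirrN : Irr (ρ.comp N.subtype) := irr_sub ρ N₁ N hirr hNf hle
  have hfinq : Finite (H ⧸ N) := inferInstance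
  have hftq : Fintype (H ⧸ N) := Fintype.ofFinite _
  refine ⟨Fintype.card (H ⧸ N), fun d => ?_⟩
  have hfd : FiniteDimensional K (E1 ρ ^ d : Submodule K (H → K)) :=
    Module.Finite.iff_fg.2 ((E1_fg ρ).pow d)
  have hesc : ∀ (p : A → ℝ) (ε : ℝ), ∃ η : ℝ, 0 < η ∧ ((∀ a, 0 < p a) → ∑ a, p a = 1 → 0 < ε →
      ∀ π : Set H → ℝ, IsMean π → Stat x p η π → ∀ J ≤ E1 ρ ^ d, π (bad N J) ≤ ε) := by
    intro p ε
    by_cases hc : (∀ a, 0 < p a) ∧ ∑ a, p a = 1 ∧ 0 < ε
    · obtain ⟨η, hη, h⟩ := escape x p hc.1 hc.2.1 hx N (E1 ρ ^ d) (Ed_stab ρ d)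
        (fun J hJ N' hN' hs ν hν => stab ρ N₁ hirr (E1 ρ ^ d) (Ed_stab ρ d) (Ed_pol ρ d) J hJ N' hN'
          hs ν (hle hν)) (Module.finrank K (E1 ρ ^ d : Submodule K (H → K))) ε hc.2.2
      exact ⟨η, hη, fun _ _ _ π hπ hst J hJ => h π hπ hst J hJ (Nat.le_add_left _ _)⟩
    · exact ⟨1, one_pos, fun h1 h2 h3 => absurd ⟨h1, h2, h3⟩ hc⟩
  choose η hη hesc using hesc
  refine ⟨η, hη, fun k _ _ n FF hset hdeg M v => ?_⟩
  -- the space of functions
  obtain ⟨J, hJ⟩ : ∃ J : Submodule K (H → K), J = Submodule.span K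
      ((fun (F : MvPolynomial (Fin (n + 1)) k) (h : H) =>
        MvPolynomial.aeval (orb M ρ v h) F) '' FF) := ⟨_, rfl⟩
  have hco : ∀ i, (fun h => orb M ρ v h i) ∈ E1 ρ := fun i => coord_mem ρ M v i
  have hJF : J ≤ E1 ρ ^ d := by
    rw [hJ, Submodule.span_le]
    rintro _ ⟨F, hF, rfl⟩
    exact form_mem ρ (fun h => orb M ρ v h) hco F (hdeg F hF)
  have hZ : ∀ h, h ∈ Z J ↔ ∀ F ∈ FF, MvPolynomial.aeval (orb M ρ v h) F = 0 := by
    intro h
    constructor
    · intro hh F hF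
      exact hh _ (by rw [hJ]; exact Submodule.subset_span ⟨F, hF, rfl⟩)
    · intro hh f hf
      rw [hJ] at hf
      induction hf using Submodule.span_induction with
      | mem f hf =>
        obtain ⟨F, hF, rfl⟩ := hf
        exact hh F hF
      | zero => rfl
      | add a b _ _ ha hb => rw [Pi.add_apply, ha, hb, add_zero]
      | smul c a _ ha => rw [Pi.smul_apply, ha, smul_zero]
  -- one point for each coset
  have hpt : ∀ y y' : H, (QuotientGroup.mk y : H ⧸ N) = QuotientGroup.mk y' → y ∈ Z (hull N J) →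
      ∀ (h0 : orb M ρ v y ≠ 0) (h0' : orb M ρ v y' ≠ 0),
        Projectivization.mk K (orb M ρ v y) h0 = Projectivization.mk K (orb M ρ v y') h0' := by
    intro y y' hyy hy h0 h0'
    rw [Z_hull] at hy
    obtain ⟨c, hc⟩ := (hset.good (ρ.comp N.subtype) hirrN).triv
      (fun ν => orb M ρ v ((ν : H) * y)) (fun i => by
        have h1 := pol_right ρ y (Ed_pol ρ 1 _ (by rw [pow_one]; exact hco i))
        exact pol_comp ρ N.subtype h1) (fun ν => (hZ _).1 (hy ν ν.2))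
    have h1 : y' * y⁻¹ ∈ N := by
      have h2 : y⁻¹ * y' ∈ N := QuotientGroup.eq.1 hyy
      have h3 := hNn.conj_mem _ h2 y
      rwa [mul_inv_cancel_left] at h3
    obtain ⟨s1, hs1⟩ := hc 1
    obtain ⟨s2, hs2⟩ := hc ⟨_, h1⟩
    have hs1' : orb M ρ v y = s1 • c := by
      rw [← hs1, Subgroup.coe_one, one_mul]
    have hs2' : orb M ρ v y' = s2 • c := by
      rw [← hs2, inv_mul_cancel_right]
    have hs2ne : s2 ≠ 0 := by
      rintro rfl
      exact h0' (by rw [hs2', zero_smul])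
    rw [Projectivization.mk_eq_mk_iff']
    exact ⟨s1 * s2⁻¹, by rw [hs1', hs2', smul_smul, mul_assoc, inv_mul_cancel₀ hs2ne, mul_one]⟩
  have hP : ∀ q : H ⧸ N, ∃ P : Projectivization K (Fin (n + 1) → K), ∀ y : H,
      (QuotientGroup.mk y : H ⧸ N) = q → y ∈ Z (hull N J) → ∀ h0 : orb M ρ v y ≠ 0,
        Projectivization.mk K (orb M ρ v y) h0 = P := by
    intro q
    by_cases hc : ∃ (y : H) (_ : (QuotientGroup.mk y : H ⧸ N) = q), orb M ρ v y ≠ 0
    · obtain ⟨y', hy', h0'⟩ := hc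
      exact ⟨Projectivization.mk K (orb M ρ v y') h0', fun y hy hyZ h0 =>
        hpt y y' (hy.trans hy'.symm) hyZ h0 h0'⟩
    · exact ⟨Projectivization.mk K (fun _ => 1) (fun h => one_ne_zero (congrFun h 0)),
        fun y hy _ h0 => absurd ⟨y, hy, h0⟩ hc⟩
  choose P hP using hP
  refine ⟨Finset.univ.image P, Finset.card_image_le, fun p hp h1 ε hε π hπ hst => ?_⟩
  refine (hπ.mono ?_).trans (hesc p ε hp h1 hε π hπ hst J hJF)
  rintro h ⟨h0, hFF, hC⟩
  refine ⟨(hZ h).2 hFF, fun hh => hC ?_⟩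
  rw [hP _ h rfl hh h0]
  exact Finset.mem_image_of_mem _ (Finset.mem_univ _)

/-! ### Words -/

/-- the expectation as a sum over words -/
theorem E_words (x : A → H) (p : A → ℝ) (m : ℕ) : ∀ f : H → ℝ, E x p m f =
    ∑ w : Fin m → A, (∏ i, p (w i)) * f (List.ofFn fun i => x (w i)).prod := by
  induction m with
  | zero =>
    intro f
    rw [Fintype.sum_unique, Finset.univ_eq_empty, Finset.prod_empty, one_mul, List.ofFn_zero,
      List.prod_nil]
    rfl
  | succ m ih =>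
    intro f
    simp only [E]
    rw [← (Fin.consEquiv fun _ : Fin (m + 1) => A).sum_comp, Fintype.sum_prod_type]
    refine Finset.sum_congr rfl fun a _ => ?_
    rw [ih, Finset.mul_sum]
    refine Finset.sum_congr rfl fun w _ => ?_
    rw [Fin.prod_univ_succ, List.ofFn_succ, List.prod_cons, mul_assoc]
    simp [Fin.consEquiv]

end Pool.Agent.K6.H82.RW
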