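import Pool.Agent.TH717.GO.Hyb2

set_option autoImplicit false

/-! # A rational curve gives an orbit of a cyclic group which meets every point finitely often -/

namespace Pool.Agent.K6.H82.RW

open Matrix Pool.Agent.TH717.GO Pool.Agent.H533R3.SL

variable {n : ℕ}

theorem curve_orbit' {K : Type} [Field K] [NumberField K] {N : ℕ} (w : Fin N → Fin (n + 1) → K)
    (h2 : ∃ i j, cur w (fun j => (j : ℕ)) i * Polynomial.C ((cur w (fun j => (j : ℕ)) j).eval 1) ≠
        cur w (fun j => (j : ℕ)) j * Polynomial.C ((cur w (fun j => (j : ℕ)) i).eval 1))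
    (C : Finset (Projectivization K (Fin (n + 1) → K))) :
    ∃ m₀ : ℕ, ∀ m ≥ m₀, ∃ h0 : (fun i => (cur w (fun j => (j : ℕ)) i).eval ((2 : K) ^ m)) ≠ 0,
      Projectivization.mk K _ h0 ∉ C := by
  classical
  obtain ⟨q, hq⟩ : ∃ q : Fin (n + 1) → Polynomial K, q = cur w (fun j => (j : ℕ)) := ⟨_, rfl⟩
  rw [← hq] at h2 ⊢
  obtain ⟨i1, i2, a, b, hab⟩ := Pool.Agent.TH409.SH.nonconst_of q h2
  have h2inj : Function.Injective (fun m : ℕ => (2 : K) ^ m) := by
    intro m m' h
    have h4 : ((2 ^ m : ℕ) : K) = ((2 ^ m' : ℕ) : K) := by push_cast; exact h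
    exact Nat.pow_right_injective (le_refl 2) (Nat.cast_injective h4)
  -- the parameters whose points are on a line
  have hline : ∀ c : Fin (n + 1) → K, c ≠ 0 →
      {m : ℕ | ∃ s : K, (fun i => (q i).eval ((2 : K) ^ m)) = s • c}.Finite := by
    intro c hc
    by_contra hinf
    have hrel : ∀ i j, q i * Polynomial.C (c j) = q j * Polynomial.C (c i) := by
      intro i j
      rw [← sub_eq_zero]
      refine Polynomial.eq_zero_of_infinite_isRoot _ ?_
      refine Set.Infinite.mono ?_ (Set.Infinite.image h2inj.injOn hinf)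
      rintro _ ⟨m, ⟨s, hs⟩, rfl⟩
      have hi : ∀ i, (q i).eval ((2 : K) ^ m) = s * c i := fun i => congrFun hs i
      show (q i * Polynomial.C (c j) - q j * Polynomial.C (c i)).eval ((2 : K) ^ m) = 0
      rw [Polynomial.eval_sub, Polynomial.eval_mul, Polynomial.eval_mul, Polynomial.eval_C,
        Polynomial.eval_C, hi, hi]
      ring
    obtain ⟨i0, hi0⟩ := Function.ne_iff.1 hc
    have hi0' : c i0 ≠ 0 := hi0
    apply hab
    have e1 := congrArg (Polynomial.eval a) (hrel i1 i0)
    have e2 := congrArg (Polynomial.eval b) (hrel i2 i0)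
    have e3 := congrArg (Polynomial.eval a) (hrel i2 i0)
    have e4 := congrArg (Polynomial.eval b) (hrel i1 i0)
    simp only [Polynomial.eval_mul, Polynomial.eval_C] at e1 e2 e3 e4
    have hne2 : c i0 * c i0 ≠ 0 := mul_ne_zero hi0' hi0'
    apply mul_right_cancel₀ hne2
    calc (q i1).eval a * (q i2).eval b * (c i0 * c i0)
        = ((q i1).eval a * c i0) * ((q i2).eval b * c i0) := by ring
      _ = ((q i0).eval a * c i1) * ((q i0).eval b * c i2) := by rw [e1, e2]
      _ = ((q i0).eval a * c i2) * ((q i0).eval b * c i1) := by ring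
      _ = ((q i2).eval a * c i0) * ((q i1).eval b * c i0) := by rw [e3, e4]
      _ = (q i2).eval a * (q i1).eval b * (c i0 * c i0) := by ring
  have hbad : {m : ℕ | ¬ ∃ h0 : (fun i => (q i).eval ((2 : K) ^ m)) ≠ 0,
      Projectivization.mk K _ h0 ∉ C}.Finite := by
    have h1 : (fun _ : Fin (n + 1) => (1 : K)) ≠ 0 := fun h => one_ne_zero (congrFun h 0)
    refine ((hline _ h1).union (Set.Finite.biUnion C.finite_toSet fun P _ =>
      hline P.rep P.rep_nonzero)).subset ?_
    intro m hm
    by_cases h0 : (fun i => (q i).eval ((2 : K) ^ m)) = 0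
    · left
      exact ⟨0, by rw [h0, zero_smul]⟩
    · right
      have hmem : Projectivization.mk K _ h0 ∈ C := by
        by_contra h
        exact hm ⟨h0, h⟩
      refine Set.mem_biUnion hmem ?_
      obtain ⟨u, hu⟩ := Projectivization.exists_smul_eq_mk_rep K _ h0
      refine ⟨((u⁻¹ : Kˣ) : K), ?_⟩
      rw [← hu]
      have e : ∀ z : Fin (n + 1) → K, z = ((u⁻¹ : Kˣ) : K) • ((u : K) • z) := by
        intro z
        rw [smul_smul, ← Units.val_mul, inv_mul_cancel, Units.val_one, one_smul]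
      exact e _
  obtain ⟨B, hB⟩ := hbad.bddAbove
  refine ⟨B + 1, fun m hm => ?_⟩
  by_contra h
  have := hB h
  omega

/-- A rational curve over `ℂ` gives an orbit over a number field which leaves all finite sets of
points. -/
theorem conv_fin {k : Type} [Field k] [NumberField k] (σ : k →+* ℂ)
    (FF : Set (MvPolynomial (Fin (n + 1)) k)) (h : ¬ NoRatC σ FF) :
    ∃ (r : ℕ) (K : Type) (_ : Field K) (_ : NumberField K) (_ : Algebra k K)
      (g : GL (Fin r) K) (M : Matrix (Fin (n + 1)) (Fin r) K) (v : Fin r → K),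
      (∀ m : ℕ, ∀ F ∈ FF, MvPolynomial.aeval
        (M.mulVec (((g ^ m : GL (Fin r) K) : Matrix (Fin r) (Fin r) K).mulVec v)) F = 0) ∧
      ∀ C : Finset (Projectivization K (Fin (n + 1) → K)), ∃ m₀ : ℕ, ∀ m ≥ m₀,
        ∃ h0 : M.mulVec (((g ^ m : GL (Fin r) K) : Matrix (Fin r) (Fin r) K).mulVec v) ≠ 0,
          Projectivization.mk K _ h0 ∉ C := by
  classical
  unfold NoRatC at h
  push Not at h
  obtain ⟨q, hq, i, j, a, b, hab⟩ := h
  let _ : Algebra k ℂ := σ.toAlgebra
  let sh : Polynomial ℂ →+* Polynomial ℂ := Polynomial.compRingHom (Polynomial.X + Polynomial.C (b - 1))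
  let p : Fin (n + 1) → Polynomial ℂ := fun i => sh (q i)
  have hpe : ∀ i (t : ℂ), (p i).eval t = (q i).eval (t + (b - 1)) := by
    intro i t
    show ((q i).comp _).eval t = _
    rw [Polynomial.eval_comp, Polynomial.eval_add, Polynomial.eval_X, Polynomial.eval_C]
  have hp : ∀ F ∈ FF, MvPolynomial.aeval p F = 0 := by
    intro F hF
    have h1 := congrArg sh (hq F hF)
    rw [map_zero, MvPolynomial.hom_eval₂] at h1
    rw [MvPolynomial.aeval_def]
    have h2 : sh.comp (Polynomial.C.comp σ) = algebraMap k (Polynomial ℂ) := by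
      refine RingHom.ext fun x => ?_
      show (Polynomial.C (σ x)).comp _ = _
      rw [Polynomial.C_comp, Polynomial.algebraMap_apply]
      rfl
    rw [← h2]
    exact h1
  set N : ℕ := Finset.univ.sup (fun i => (p i).natDegree) + 1 with hN
  have hNc : ∀ i m, N ≤ m → (p i).coeff m = 0 := by
    intro i m hm
    apply Polynomial.coeff_eq_zero_of_natDegree_lt
    have := Finset.le_sup (f := fun i => (p i).natDegree) (Finset.mem_univ i)
    omega
  obtain ⟨K, iK, iN, iAK, w, h1, h2, -⟩ := Pool.Agent.TH409.SH.specialise k ℂ p FF hp N hNc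
    ⟨i, j, fun heq => hab (by
      have h4 := congrArg (Polynomial.eval (a - (b - 1))) heq
      rw [Polynomial.eval_mul, Polynomial.eval_mul, Polynomial.eval_C, Polynomial.eval_C, hpe, hpe,
        hpe, hpe] at h4
      simpa using h4)⟩ 1 (by rw [map_one]; exact one_ne_zero)
  have hev : ∀ (F : MvPolynomial (Fin (n + 1)) k) (t : K),
      (MvPolynomial.aeval (cur w (fun j => (j : ℕ))) F).eval t =
      MvPolynomial.aeval (fun i => (cur w (fun j => (j : ℕ)) i).eval t) F := by
    intro F t
    exact MvPolynomial.comp_aeval_apply (R := k) _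
      ((Polynomial.aeval t : Polynomial K →ₐ[K] K).restrictScalars k) F
  have horb : ∀ m : ℕ, (M0 w).mulVec (((dia K N (Multiplicative.ofAdd (1 : ℤ)) ^ m :
      GL (Fin N) K) : Matrix (Fin N) (Fin N) K).mulVec fun _ => 1) =
      fun i => (cur w (fun j => (j : ℕ)) i).eval ((2 : K) ^ m) := by
    intro m
    rw [← map_pow, ← ofAdd_nsmul]
    funext i
    show ∑ j, M0 w i j * ((Matrix.diagonal fun j : Fin N =>
      ((2 : K) ^ (Multiplicative.toAdd (Multiplicative.ofAdd (m • (1 : ℤ))))) ^ (j : ℕ)).mulVec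
        fun _ => 1) j = _
    unfold cur
    rw [Polynomial.eval_finsetSum]
    refine Finset.sum_congr rfl fun j _ => ?_
    rw [Matrix.mulVec_diagonal, Polynomial.eval_mul, Polynomial.eval_C, Polynomial.eval_pow,
      Polynomial.eval_X, mul_one]
    have : (2 : K) ^ (Multiplicative.toAdd (Multiplicative.ofAdd (m • (1 : ℤ)))) = (2 : K) ^ m := by
      rw [toAdd_ofAdd, nsmul_eq_mul, mul_one, zpow_natCast]
    rw [this]
    rfl
  refine ⟨N, K, iK, iN, iAK, dia K N (Multiplicative.ofAdd (1 : ℤ)), M0 w, fun _ => 1, ?_, ?_⟩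
  · intro m F hF
    rw [horb, ← hev, h1 F hF, Polynomial.eval_zero]
  · intro C
    obtain ⟨m₀, h⟩ := curve_orbit' w h2 C
    refine ⟨m₀, fun m hm => ?_⟩
    obtain ⟨h0, hC⟩ := h m hm
    refine ⟨by rw [horb]; exact h0, ?_⟩
    simp only [horb]
    exact hC

end Pool.Agent.K6.H82.RW
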