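import Pool.Agent.K6.H47.SG.Irr
import Pool.Agent.K6.H82.RW.Mean

set_option autoImplicit false

/-! # Random walks on groups of matrices escape from closed sets, uniformly -/

namespace Pool.Agent.K6.H82.RW

open Pool.Agent.K6.H47.SG

variable {H : Type} [Group H] {K : Type} [Field K]

/-- the zero set of a space of functions -/
def Z (J : Submodule K (H → K)) : Set H := {h | ∀ f ∈ J, f h = 0}

/-- the translate of a space of functions -/
def T (g : H) (J : Submodule K (H → K)) : Submodule K (H → K) := J.map (lam g).toLinearMap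

theorem mem_T {g : H} {J : Submodule K (H → K)} {f : H → K} :
    f ∈ T g J ↔ ∃ f' ∈ J, lam g f' = f := Submodule.mem_map

theorem T_one (J : Submodule K (H → K)) : T 1 J = J := by
  ext f
  rw [mem_T]
  constructor
  · rintro ⟨f', hf', rfl⟩
    have : lam (1 : H) f' = f' := by
      funext y
      rw [lam_apply, one_mul]
    rwa [this]
  · intro hf
    refine ⟨f, hf, ?_⟩
    funext y
    rw [lam_apply, one_mul]

theorem T_mul (g g' : H) (J : Submodule K (H → K)) : T g' (T g J) = T (g * g') J := by
  ext f
  rw [mem_T, mem_T]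
  constructor
  · rintro ⟨f', hf', rfl⟩
    obtain ⟨f'', hf'', rfl⟩ := mem_T.1 hf'
    refine ⟨f'', hf'', ?_⟩
    funext y
    simp only [lam_apply, mul_assoc]
  · rintro ⟨f', hf', rfl⟩
    refine ⟨lam g f', mem_T.2 ⟨f', hf', rfl⟩, ?_⟩
    funext y
    simp only [lam_apply, mul_assoc]

theorem T_inj (g : H) : Function.Injective (T g : Submodule K (H → K) → _) := by
  intro J J' h
  have := congrArg (T g⁻¹) h
  rwa [T_mul, T_mul, mul_inv_cancel, T_one, T_one] at this

theorem T_mono (g : H) {J J' : Submodule K (H → K)} (h : J ≤ J') : T g J ≤ T g J' :=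
  Submodule.map_mono h

theorem lam_inj (g : H) : Function.Injective (lam (K := K) g) := by
  intro f f' h
  funext y
  have := congrFun h (g⁻¹ * y)
  rwa [lam_apply, lam_apply, mul_inv_cancel_left] at this

theorem T_finrank (g : H) (J : Submodule K (H → K)) :
    Module.finrank K (T g J) = Module.finrank K J :=
  (Submodule.equivMapOfInjective (lam g).toLinearMap (lam_inj g) J).finrank_eq.symm

theorem Z_T (g : H) (J : Submodule K (H → K)) (h : H) : h ∈ Z (T g J) ↔ g * h ∈ Z J := by
  constructor
  · intro hh f hf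
    exact hh (lam g f) (mem_T.2 ⟨f, hf, rfl⟩)
  · rintro hh f hf
    obtain ⟨f', hf', rfl⟩ := mem_T.1 hf
    exact hh f' hf'

theorem Z_anti {J J' : Submodule K (H → K)} (h : J ≤ J') : Z J' ⊆ Z J :=
  fun _ hy f hf => hy f (h hf)

theorem Z_sup (J J' : Submodule K (H → K)) : Z J ∩ Z J' = Z (J ⊔ J') := by
  ext h
  constructor
  · rintro ⟨h1, h2⟩ f hf
    obtain ⟨a, ha, b, hb, rfl⟩ := Submodule.mem_sup.1 hf
    rw [Pi.add_apply, h1 a ha, h2 b hb, add_zero]
  · intro hh
    exact ⟨Z_anti le_sup_left hh, Z_anti le_sup_right hh⟩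

/-- the smallest space containing `J` and stable under `N` -/
def hull (N : Subgroup H) (J : Submodule K (H → K)) : Submodule K (H → K) := ⨆ ν : N, T (ν : H) J

theorem Z_hull (N : Subgroup H) (J : Submodule K (H → K)) (h : H) :
    h ∈ Z (hull N J) ↔ ∀ ν ∈ N, ν * h ∈ Z J := by
  constructor
  · intro hh ν hν
    rw [← Z_T]
    exact Z_anti (le_iSup (fun ν : N => T (ν : H) J) ⟨ν, hν⟩) hh
  · intro hh f hf
    unfold hull at hf
    induction hf using Submodule.iSup_induction' with
    | mem ν f hf => exact (Z_T _ _ _).2 (hh ν ν.2) f hf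
    | zero => rfl
    | add a b _ _ ha hb => rw [Pi.add_apply, ha, hb, add_zero]

theorem hull_mono (N : Subgroup H) {J J' : Submodule K (H → K)} (h : J ≤ J') :
    hull N J ≤ hull N J' :=
  iSup_mono fun ν => T_mono _ h

/-- the part of the zero set outside of the cosets of `N` which it contains -/
def bad (N : Subgroup H) (J : Submodule K (H → K)) : Set H := Z J \ Z (hull N J)

theorem bad_T (N : Subgroup H) [hN : N.Normal] (g : H) (J : Submodule K (H → K)) (h : H) :
    h ∈ bad N (T g J) ↔ g * h ∈ bad N J := by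
  unfold bad
  rw [Set.mem_sdiff, Set.mem_sdiff, Z_T, Z_hull, Z_hull]
  refine and_congr_right fun _ => not_congr ?_
  constructor
  · intro hh ν hν
    have := hh (g⁻¹ * ν * g) (by
      have := hN.conj_mem ν hν g⁻¹
      rwa [inv_inv] at this)
    rw [Z_T] at this
    convert this using 1
    group
  · intro hh ν hν
    rw [Z_T]
    have := hh (g * ν * g⁻¹) (hN.conj_mem ν hν g)
    convert this using 1
    group

theorem bad_empty (N : Subgroup H) (J : Submodule K (H → K)) (h : ∀ ν ∈ N, T ν J ≤ J) :
    bad N J = ∅ := by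
  rw [Set.eq_empty_iff_forall_notMem]
  rintro y ⟨h1, h2⟩
  exact h2 (Z_anti (iSup_le fun ν : N => h ν ν.2) h1)

theorem bad_inter (N : Subgroup H) (J J' : Submodule K (H → K)) :
    bad N J ∩ bad N J' ⊆ bad N (J ⊔ J') := by
  rintro y ⟨⟨h1, h2⟩, h3, -⟩
  refine ⟨?_, fun h4 => h2 (Z_anti (hull_mono N le_sup_left) h4)⟩
  rw [← Z_sup]
  exact ⟨h1, h3⟩

/-! ### Orbits of spaces of functions -/

variable {A : Type} [Fintype A]

/-- If a finite set of spaces is stable under the translations by generators, then the spaces are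
stable under a subgroup of finite index. -/
theorem exists_stab (x : A → H) (hx : Subgroup.closure (Set.range x) = ⊤)
    (D : Finset (Submodule K (H → K))) (hD : ∀ J ∈ D, ∀ a, T (x a) J ∈ D)
    {J : Submodule K (H → K)} (hJ : J ∈ D) :
    ∃ N' : Subgroup H, N'.FiniteIndex ∧ ∀ ν ∈ N', T ν J ≤ J := by
  classical
  have hall : ∀ g : H, ∀ J ∈ D, T g J ∈ D := by
    intro g
    have hg : g ∈ Subgroup.closure (Set.range x) := by rw [hx]; exact Subgroup.mem_top g
    induction hg using Subgroup.closure_induction with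
    | mem g hg =>
      obtain ⟨a, rfl⟩ := hg
      exact fun J hJ => hD J hJ a
    | one => intro J hJ; rwa [T_one]
    | mul a b _ _ ha hb =>
      intro J hJ
      rw [← T_mul]
      exact hb _ (ha _ hJ)
    | inv a _ ha =>
      intro J hJ
      -- the translation by `a` permutes `D`
      have h1 : D.image (T a) = D := by
        apply Finset.eq_of_subset_of_card_le
        · intro J' hJ'
          obtain ⟨J'', h2, rfl⟩ := Finset.mem_image.1 hJ'
          exact ha _ h2
        · rw [Finset.card_image_of_injective _ (T_inj a)]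
      rw [← h1] at hJ
      obtain ⟨J', hJ', rfl⟩ := Finset.mem_image.1 hJ
      rwa [T_mul, mul_inv_cancel, T_one]
  let N' : Subgroup H :=
    { carrier := {g | T g J = J}
      mul_mem' := fun {a b} ha hb => by
        change T (a * b) J = J
        rw [← T_mul, show T a J = J from ha]
        exact hb
      one_mem' := T_one J
      inv_mem' := fun {a} ha => by
        change T a⁻¹ J = J
        have h1 : T a⁻¹ (T a J) = J := by rw [T_mul, mul_inv_cancel, T_one]
        rwa [show T a J = J from ha] at h1 }
  refine ⟨N', ?_, fun ν hν => le_of_eq hν⟩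
  have hinj : Function.Injective (fun q : H ⧸ N' => (⟨T (q.out)⁻¹ J, hall _ _ hJ⟩ : D)) := by
    intro q q' h
    have h1 : T (q.out)⁻¹ J = T (q'.out)⁻¹ J := congrArg Subtype.val h
    have h2 : T ((q.out)⁻¹ * q'.out) J = J := by
      rw [← T_mul, h1, T_mul, inv_mul_cancel, T_one]
    rw [← q.out_eq', ← q'.out_eq']
    exact QuotientGroup.eq.2 h2
  have : Finite (H ⧸ N') := Finite.of_injective _ hinj
  exact Subgroup.finiteIndex_of_finite_quotient

/-- the translates of `J` by the words of length at most `j` -/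
noncomputable def Orb (x : A → H) (J : Submodule K (H → K)) : ℕ → Finset (Submodule K (H → K))
  | 0 => {J}
  | j + 1 => by
    classical
    exact Orb x J j ∪ (Orb x J j).biUnion fun J' => Finset.univ.image fun a => T (x a) J'

theorem orb_sub (x : A → H) (J : Submodule K (H → K)) (j : ℕ) : Orb x J j ⊆ Orb x J (j + 1) := by
  classical
  intro J' h
  simp only [Orb]
  convert Finset.mem_union_left _ h

theorem orb_step (x : A → H) (J : Submodule K (H → K)) (j : ℕ) {J' : Submodule K (H → K)}
    (h : J' ∈ Orb x J j) (a : A) : T (x a) J' ∈ Orb x J (j + 1) := by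
  classical
  simp only [Orb]
  have : T (x a) J' ∈ (Orb x J j).biUnion fun J' => Finset.univ.image fun a => T (x a) J' :=
    Finset.mem_biUnion.2 ⟨J', h, Finset.mem_image.2 ⟨a, Finset.mem_univ a, rfl⟩⟩
  convert Finset.mem_union_right _ this

theorem mem_orb_succ (x : A → H) (J : Submodule K (H → K)) (j : ℕ) {J' : Submodule K (H → K)}
    (h : J' ∈ Orb x J (j + 1)) : J' ∈ Orb x J j ∨ ∃ J'' ∈ Orb x J j, ∃ a, T (x a) J'' = J' := by
  classical
  simp only [Orb] at h
  have h1 : J' ∈ Orb x J j ∪ (Orb x J j).biUnion fun J' => Finset.univ.image fun a => T (x a) J' := by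
    convert h
  rcases Finset.mem_union.1 h1 with h2 | h2
  · exact Or.inl h2
  · obtain ⟨J'', h3, h4⟩ := Finset.mem_biUnion.1 h2
    obtain ⟨a, -, rfl⟩ := Finset.mem_image.1 h4
    exact Or.inr ⟨J'', h3, a, rfl⟩

theorem self_mem_orb (x : A → H) (J : Submodule K (H → K)) (j : ℕ) : J ∈ Orb x J j := by
  induction j with
  | zero => exact Finset.mem_singleton_self J
  | succ j ih => exact orb_sub x J j ih

/-- The number of translates by words of length at most `j` is larger than `j`, or the orbit is
finite. -/
theorem orb_card (x : A → H) (hx : Subgroup.closure (Set.range x) = ⊤) (J : Submodule K (H → K))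
    (h : ∀ N' : Subgroup H, N'.FiniteIndex → ¬ ∀ ν ∈ N', T ν J ≤ J) (j : ℕ) :
    j + 1 ≤ (Orb x J j).card := by
  induction j with
  | zero => exact le_of_eq (Finset.card_singleton J).symm
  | succ j ih =>
    have hlt : (Orb x J j).card < (Orb x J (j + 1)).card := by
      apply Finset.card_lt_card
      refine (orb_sub x J j).ssubset_of_ne fun heq => ?_
      obtain ⟨N', h1, h2⟩ := exists_stab x hx (Orb x J j) (fun J' hJ' a => by
        have := orb_step x J j hJ' a
        rwa [← heq] at this) (self_mem_orb x J j)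
      exact h N' h1 h2
    omega

end Pool.Agent.K6.H82.RW
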