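import Mathlib

set_option autoImplicit false

/-! # Random walks on groups: the expectation functional, averages over windows of time -/

namespace Pool.Agent.K6.H82.RW

variable {H : Type} [Group H] {A : Type} [Fintype A]

/-- the expectation of `f (x a₁ * ⋯ * x a_m)`, the letters `a_i` being independent with law `p` -/
noncomputable def E (x : A → H) (p : A → ℝ) : ℕ → (H → ℝ) → ℝ
  | 0, f => f 1
  | m + 1, f => ∑ a, p a * E x p m (fun h => f (x a * h))

/-- the average of the expectations at the times `s, s + 1, ..., s + L - 1` -/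
noncomputable def Av (x : A → H) (p : A → ℝ) (s L : ℕ) (f : H → ℝ) : ℝ :=
  (∑ m ∈ Finset.range L, E x p (s + m) f) / L

/-- the indicator function of a set -/
noncomputable def ind (S : Set H) : H → ℝ := Set.indicator S 1

theorem ind_nonneg (S : Set H) (h : H) : 0 ≤ ind S h := Set.indicator_nonneg (fun _ _ => zero_le_one) h

theorem ind_le_one (S : Set H) (h : H) : ind S h ≤ 1 := by
  unfold ind
  by_cases hh : h ∈ S
  · rw [Set.indicator_of_mem hh]; rfl
  · rw [Set.indicator_of_notMem hh]; exact zero_le_one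

theorem ind_mono {S T : Set H} (hST : S ⊆ T) (h : H) : ind S h ≤ ind T h :=
  Set.indicator_le_indicator_of_subset hST (fun _ => zero_le_one) h

theorem ind_empty (h : H) : ind (∅ : Set H) h = 0 := by unfold ind; simp

variable (x : A → H) (p : A → ℝ)

theorem E_add (m : ℕ) : ∀ f g : H → ℝ, E x p m (fun h => f h + g h) = E x p m f + E x p m g := by
  induction m with
  | zero => intro f g; rfl
  | succ m ih =>
    intro f g
    simp only [E]
    rw [← Finset.sum_add_distrib]
    refine Finset.sum_congr rfl fun a _ => ?_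
    rw [← mul_add, ← ih]

theorem E_zero (m : ℕ) : E x p m (fun _ => (0 : ℝ)) = 0 := by
  induction m with
  | zero => rfl
  | succ m ih => simp only [E, ih, mul_zero, Finset.sum_const_zero]

theorem E_sum {ι : Type} (D : Finset ι) (f : ι → H → ℝ) (m : ℕ) :
    E x p m (fun h => ∑ i ∈ D, f i h) = ∑ i ∈ D, E x p m (f i) := by
  classical
  induction D using Finset.induction_on with
  | empty => simp only [Finset.sum_empty]; exact E_zero x p m
  | insert i D hi ih =>
    rw [Finset.sum_insert hi, ← ih, ← E_add]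
    congr 1
    funext h
    rw [Finset.sum_insert hi]

theorem E_mono (hp : ∀ a, 0 ≤ p a) (m : ℕ) : ∀ f g : H → ℝ, (∀ h, f h ≤ g h) →
    E x p m f ≤ E x p m g := by
  induction m with
  | zero => intro f g h; exact h 1
  | succ m ih =>
    intro f g h
    simp only [E]
    exact Finset.sum_le_sum fun a _ => mul_le_mul_of_nonneg_left (ih _ _ fun y => h _) (hp a)

theorem E_one (h1 : ∑ a, p a = 1) (m : ℕ) : E x p m (fun _ => (1 : ℝ)) = 1 := by
  induction m with
  | zero => rfl
  | succ m ih => simp only [E, ih, mul_one, h1]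

theorem Av_add (s L : ℕ) (f g : H → ℝ) :
    Av x p s L (fun h => f h + g h) = Av x p s L f + Av x p s L g := by
  unfold Av
  rw [← add_div, ← Finset.sum_add_distrib]
  simp only [E_add]

theorem Av_sum {ι : Type} (D : Finset ι) (f : ι → H → ℝ) (s L : ℕ) :
    Av x p s L (fun h => ∑ i ∈ D, f i h) = ∑ i ∈ D, Av x p s L (f i) := by
  unfold Av
  simp only [E_sum]
  rw [Finset.sum_comm, Finset.sum_div]

theorem Av_mono (hp : ∀ a, 0 ≤ p a) (s L : ℕ) (f g : H → ℝ) (h : ∀ y, f y ≤ g y) :
    Av x p s L f ≤ Av x p s L g := by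
  unfold Av
  exact div_le_div_of_nonneg_right (Finset.sum_le_sum fun m _ => E_mono x p hp _ f g h)
    (Nat.cast_nonneg L)

theorem Av_one (h1 : ∑ a, p a = 1) (s L : ℕ) (hL : 0 < L) : Av x p s L (fun _ => (1 : ℝ)) = 1 := by
  unfold Av
  simp only [E_one x p h1]
  rw [Finset.sum_const, Finset.card_range, nsmul_eq_mul, mul_one]
  exact div_self (by positivity)

theorem Av_zero (s L : ℕ) : Av x p s L (fun _ : H => (0 : ℝ)) = 0 := by
  unfold Av
  simp only [E_zero, Finset.sum_const_zero, zero_div]

theorem Av_nonneg (hp : ∀ a, 0 ≤ p a) (s L : ℕ) (f : H → ℝ) (h : ∀ y, 0 ≤ f y) :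
    0 ≤ Av x p s L f := by
  have h1 := Av_mono x p hp s L (fun _ => 0) f h
  have h2 : Av x p s L (fun _ : H => (0 : ℝ)) = 0 := by
    unfold Av
    simp only [E_zero, Finset.sum_const_zero, zero_div]
  rw [h2] at h1
  exact h1

/-- approximate stationarity -/
theorem Av_step (hp : ∀ a, 0 ≤ p a) (h1 : ∑ a, p a = 1) (s L : ℕ) (hL : 0 < L) (f : H → ℝ)
    (hf0 : ∀ y, 0 ≤ f y) (hf1 : ∀ y, f y ≤ 1) :
    Av x p s L f ≤ ∑ a, p a * Av x p s L (fun h => f (x a * h)) + 1 / L := by
  have e1 : ∑ a, p a * Av x p s L (fun h => f (x a * h)) =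
      (∑ m ∈ Finset.range L, E x p (s + m + 1) f) / L := by
    unfold Av
    simp only [E, ← mul_div_assoc, Finset.mul_sum]
    rw [← Finset.sum_div, Finset.sum_comm]
  have e2 : ∑ m ∈ Finset.range L, E x p (s + m + 1) f + E x p s f =
      ∑ m ∈ Finset.range L, E x p (s + m) f + E x p (s + L) f := by
    have a1 := Finset.sum_range_succ (fun m => E x p (s + m) f) L
    have a2 := Finset.sum_range_succ' (fun m => E x p (s + m) f) L
    rw [a1] at a2
    simp only [← add_assoc] at a2
    rw [add_zero] at a2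
    exact a2.symm
  have h2 : E x p s f ≤ 1 := by
    have := E_mono x p hp s f (fun _ => 1) hf1
    rwa [E_one x p h1] at this
  have h3 : 0 ≤ E x p (s + L) f := by
    have := E_mono x p hp (s + L) (fun _ => 0) f hf0
    rwa [E_zero] at this
  rw [e1]
  unfold Av
  rw [← add_div]
  apply div_le_div_of_nonneg_right _ (Nat.cast_nonneg L)
  linarith

/-- a union bound from below -/
theorem bonf (hp : ∀ a, 0 ≤ p a) (h1 : ∑ a, p a = 1) (s L : ℕ) (hL : 0 < L) {ι : Type}
    [DecidableEq ι] (D : Finset ι) (S : ι → Set H) :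
    ∑ i ∈ D, Av x p s L (ind (S i)) ≤
      1 + ∑ q ∈ D.offDiag, Av x p s L (ind (S q.1 ∩ S q.2)) := by
  classical
  rw [← Av_sum, ← Av_sum, ← Av_one x p h1 s L hL, ← Av_add]
  apply Av_mono x p hp
  intro h
  have e1 : ∑ i ∈ D, ind (S i) h = ((D.filter fun i => h ∈ S i).card : ℝ) := by
    rw [Finset.card_filter, Nat.cast_sum]
    refine Finset.sum_congr rfl fun i _ => ?_
    unfold ind
    by_cases hh : h ∈ S i
    · rw [Set.indicator_of_mem hh, if_pos hh]; simp
    · rw [Set.indicator_of_notMem hh, if_neg hh]; simp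
  have e2 : ∑ q ∈ D.offDiag, ind (S q.1 ∩ S q.2) h =
      (((D.filter fun i => h ∈ S i).offDiag).card : ℝ) := by
    have e3 : (D.filter fun i => h ∈ S i).offDiag = D.offDiag.filter fun q => h ∈ S q.1 ∩ S q.2 := by
      ext q
      simp only [Finset.mem_offDiag, Finset.mem_filter, Set.mem_inter_iff]
      tauto
    rw [e3, Finset.card_filter, Nat.cast_sum]
    refine Finset.sum_congr rfl fun q _ => ?_
    unfold ind
    by_cases hh : h ∈ S q.1 ∩ S q.2
    · rw [Set.indicator_of_mem hh, if_pos hh]; simp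
    · rw [Set.indicator_of_notMem hh, if_neg hh]; simp
  rw [e1, e2, Finset.offDiag_card]
  generalize (D.filter fun i => h ∈ S i).card = c
  rcases Nat.eq_zero_or_pos c with rfl | hc
  · norm_num
  · have h3 : c ≤ 1 + (c * c - c) := by
      rcases Nat.lt_or_ge c 2 with h4 | h4
      · omega
      · have : 2 * c ≤ c * c := Nat.mul_le_mul_right c h4
        omega
    exact_mod_cast h3

end Pool.Agent.K6.H82.RW
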